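import Mathlib

set_option autoImplicit false

namespace Pool.Agent.Results.MP_2d96d7_co.BelowHalf

open Finset

/-- the pairs of `[n]` -/
abbrev P (n : ℕ) := {p : Fin n × Fin n // p.1 < p.2}

/-- the edge set of the copy of `H` in `K_n` given by the injective vertex map `f` -/
def copy {v n : ℕ} (H : Finset (P v)) (f : Fin v ↪ Fin n) : Finset (P n) :=
  univ.filter fun p => ∃ q ∈ H, (f q.1.1 = p.1.1 ∧ f q.1.2 = p.1.2) ∨ (f q.1.1 = p.1.2 ∧ f q.1.2 = p.1.1)

/-- no two distinct members have a copy of `H` as symmetric difference -/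
def IsCode {v n : ℕ} (H : Finset (P v)) (F : Finset (Finset (P n))) : Prop :=
  ∀ G₁ ∈ F, ∀ G₂ ∈ F, G₁ ≠ G₂ → ∀ f : Fin v ↪ Fin n, symmDiff G₁ G₂ ≠ copy H f

def sg (a : ZMod 2) : ℤ := if a = 0 then 1 else -1

lemma sg_add (a b : ZMod 2) : sg (a + b) = sg a * sg b := by revert a b; decide

lemma shift {ι : Type} [Fintype ι] [DecidableEq ι] (f : (ι → ZMod 2) → ℤ) (u : ι → ZMod 2) :
    ∑ y, f (y + u) = ∑ y, f y :=
  Fintype.sum_equiv (Equiv.addRight u) _ _ fun _ => rfl

lemma char_zero {ι : Type} [Fintype ι] [DecidableEq ι] (Q : (ι → ZMod 2) → ZMod 2)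
    (h : ∀ u v, Q (u + v) = Q u + Q v) (u : ι → ZMod 2) (hu : Q u ≠ 0) : ∑ y, sg (Q y) = 0 := by
  have h1 := shift (fun y => sg (Q y)) u
  have h2 : sg (Q u) = -1 := by simp [sg, hu]
  simp only [h, sg_add, h2, mul_neg, mul_one, Finset.sum_neg_distrib] at h1
  omega

def dot {n : ℕ} (h w : P n → ZMod 2) : ZMod 2 := ∑ p, h p * w p

lemma dot_add {n : ℕ} (h w w' : P n → ZMod 2) : dot h (w + w') = dot h w + dot h w' := by
  simp [dot, mul_add, Finset.sum_add_distrib]

lemma orth {n : ℕ} (w : P n → ZMod 2) :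
    ∑ h, sg (dot h w) = if w = 0 then (2 : ℤ) ^ Fintype.card (P n) else 0 := by
  split_ifs with hw
  · subst hw; simp [dot, sg]
  · obtain ⟨p, hp⟩ := Function.ne_iff.1 hw
    refine char_zero (fun h => dot h w) (fun u v => ?_) (Pi.single p 1) ?_
    · simp [dot, add_mul, Finset.sum_add_distrib]
    · simpa [dot, Pi.single_apply] using hp

def ind {n : ℕ} (G : Finset (P n)) : P n → ZMod 2 := fun p => if p ∈ G then 1 else 0

lemma cardP (n : ℕ) : Fintype.card (P n) = n.choose 2 := by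
  rw [Fintype.card_subtype, ← Finset.univ_product_univ, Finset.card_product_filter_lt]
  simp

lemma ind_eq {n : ℕ} (G₁ G₂ G : Finset (P n)) (h : ind G + (ind G₁ + ind G₂) = 0) :
    symmDiff G₁ G₂ = G := by
  ext p
  have := congrFun h p
  simp only [ind, Pi.add_apply, Pi.zero_apply] at this
  simp only [Finset.mem_symmDiff]
  revert this
  by_cases h1 : p ∈ G₁ <;> by_cases h2 : p ∈ G₂ <;> by_cases h3 : p ∈ G <;>
    simp only [h1, h2, h3] <;> decide

lemma ramsey {α : Type} [LinearOrder α] (c : α → α → ZMod 2) : ∀ k a b : ℕ, a + b = k →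
    ∀ S : Finset α, 2 ^ k ≤ S.card → ∃ T ⊆ S,
      (T.card = a ∧ ∀ x ∈ T, ∀ y ∈ T, x < y → c x y = 0) ∨
      (T.card = b ∧ ∀ x ∈ T, ∀ y ∈ T, x < y → c x y = 1) := by
  intro k
  induction k with
  | zero => intro a b h S _; exact ⟨∅, by simp, Or.inl ⟨by simp; omega, by simp⟩⟩
  | succ k ih =>
    intro a b h S hS
    rcases a with _ | a
    · exact ⟨∅, by simp, Or.inl ⟨by simp, by simp⟩⟩
    rcases b with _ | b
    · exact ⟨∅, by simp, Or.inr ⟨by simp, by simp⟩⟩
    have hne : S.Nonempty := Finset.card_pos.1 (lt_of_lt_of_le (by positivity) hS)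
    set x := S.min' hne with hx
    have hxS : x ∈ S := S.min'_mem hne
    have hsum := Finset.card_filter_add_card_filter_not (s := S.erase x) (fun y => c x y = 0)
    rw [Finset.card_erase_of_mem hxS] at hsum
    have ext : ∀ (T : Finset α) (e : ZMod 2), (∀ y ∈ T, y ∈ S.erase x ∧ c x y = e) →
        (∀ x ∈ T, ∀ y ∈ T, x < y → c x y = e) → insert x T ⊆ S ∧
        (insert x T).card = T.card + 1 ∧ ∀ u ∈ insert x T, ∀ w ∈ insert x T, u < w → c u w = e := by
      intro T e h1 h2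
      have hxT : x ∉ T := fun hh => by simpa using (h1 x hh).1
      refine ⟨Finset.insert_subset hxS fun y hy => Finset.mem_of_mem_erase (h1 y hy).1,
        Finset.card_insert_of_notMem hxT, fun u hu w hw huw => ?_⟩
      rcases Finset.mem_insert.1 hu with rfl | hu
      · rcases Finset.mem_insert.1 hw with rfl | hw
        · exact absurd huw (lt_irrefl _)
        · exact (h1 w hw).2
      · rcases Finset.mem_insert.1 hw with rfl | hw
        · exact absurd (S.min'_le u (Finset.mem_of_mem_erase (h1 u hu).1)) (not_le.2 huw)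
        · exact h2 u hu w hw huw
    have hp : 2 ^ (k + 1) = 2 * 2 ^ k := by ring
    by_cases h0 : 2 ^ k ≤ ((S.erase x).filter fun y => c x y = 0).card
    · obtain ⟨T, hT, h1 | h1⟩ := ih a (b + 1) (by omega) _ h0
      · obtain ⟨e1, e2, e3⟩ := ext T 0 (fun y hy => Finset.mem_filter.1 (hT hy)) h1.2
        exact ⟨_, e1, Or.inl ⟨by omega, e3⟩⟩
      · exact ⟨T, fun y hy => Finset.mem_of_mem_erase (Finset.mem_filter.1 (hT hy)).1, Or.inr h1⟩
    · obtain ⟨T, hT, h1 | h1⟩ := ih (a + 1) b (by omega)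
        ((S.erase x).filter fun y => ¬ c x y = 0) (by omega)
      · exact ⟨T, fun y hy => Finset.mem_of_mem_erase (Finset.mem_filter.1 (hT hy)).1, Or.inl h1⟩
      · obtain ⟨e1, e2, e3⟩ := ext T 1 (fun y hy => ⟨(Finset.mem_filter.1 (hT hy)).1, by
          have := (Finset.mem_filter.1 (hT hy)).2
          revert this; generalize c x y = z; revert z; decide⟩) h1.2
        exact ⟨_, e1, Or.inr ⟨by omega, e3⟩⟩

lemma hoffman {n : ℕ} {I : Type} [Fintype I] (k : I → Finset (P n)) (F : Finset (Finset (P n)))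
    (hb : ∀ h, ∃ i, dot h (ind (k i)) = 0)
    (hF : ∀ G₁ ∈ F, ∀ G₂ ∈ F, ∀ i, symmDiff G₁ G₂ ≠ k i) :
    (2 * (Fintype.card I : ℤ) - 1) * F.card ≤ (Fintype.card I - 1) * 2 ^ n.choose 2 := by
  classical
  set c : ℤ := Fintype.card I - 1 with hc
  have bias : ∀ h, 0 ≤ ∑ i, sg (dot h (ind (k i))) + c := by
    intro h
    obtain ⟨i, hi⟩ := hb h
    have h1 := Finset.single_le_sum (s := (univ : Finset I))
      (f := fun j => sg (dot h (ind (k j))) + 1)
      (fun j _ => by unfold sg; split_ifs <;> norm_num) (Finset.mem_univ i)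
    rw [Finset.sum_add_distrib] at h1
    simp only [hi, Finset.sum_const, Finset.card_univ, nsmul_eq_mul, mul_one] at h1
    have : sg 0 = 1 := rfl
    omega
  have pair : ∀ G₁ ∈ F, ∀ G₂ ∈ F, ∑ h, (∑ i, sg (dot h (ind (k i))) + c) *
      (sg (dot h (ind G₁)) * sg (dot h (ind G₂))) =
      if G₁ = G₂ then c * (2 : ℤ) ^ Fintype.card (P n) else 0 := by
    intro G₁ h1 G₂ h2
    have e : ∑ h, (∑ i, sg (dot h (ind (k i))) + c) * (sg (dot h (ind G₁)) * sg (dot h (ind G₂)))
        = ∑ i, ∑ h, sg (dot h (ind (k i) + (ind G₁ + ind G₂))) +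
          c * ∑ h, sg (dot h (ind G₁ + ind G₂)) := by
      rw [Finset.sum_comm, Finset.mul_sum, ← Finset.sum_add_distrib]
      refine Finset.sum_congr rfl fun h _ => ?_
      simp only [dot_add, sg_add, ← Finset.sum_mul]
      ring
    rw [e]
    simp only [orth]
    rw [Finset.sum_eq_zero]
    · split_ifs with a b b
      · simp
      · exfalso
        have := ind_eq G₁ G₂ ∅ (by rw [a]; funext p; simp [ind])
        exact b (symmDiff_eq_bot.1 this)
      · exfalso
        subst b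
        exact a (by
          funext p; simp only [Pi.add_apply, Pi.zero_apply]; exact CharTwo.add_self_eq_zero _)
      · simp
    · exact fun i _ => if_neg fun hx => hF G₁ h1 G₂ h2 i (ind_eq G₁ G₂ _ hx)
  have h1 : ∑ G₁ ∈ F, ∑ G₂ ∈ F, ∑ h, (∑ i, sg (dot h (ind (k i))) + c) *
      (sg (dot h (ind G₁)) * sg (dot h (ind G₂))) =
      F.card * (c * (2 : ℤ) ^ Fintype.card (P n)) := by
    refine (Finset.sum_congr rfl fun G₁ h1 => Finset.sum_congr rfl fun G₂ h2 =>
      pair G₁ h1 G₂ h2).trans ?_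
    rw [Finset.sum_congr rfl fun G₁ h1 => by rw [Finset.sum_ite_eq, if_pos h1]]
    simp
  have h2 : ∑ G₁ ∈ F, ∑ G₂ ∈ F, ∑ h, (∑ i, sg (dot h (ind (k i))) + c) *
      (sg (dot h (ind G₁)) * sg (dot h (ind G₂))) =
      ∑ h, (∑ i, sg (dot h (ind (k i))) + c) * (∑ G ∈ F, sg (dot h (ind G))) ^ 2 := by
    refine (Finset.sum_congr rfl fun G₁ _ => Finset.sum_comm).trans (Finset.sum_comm.trans ?_)
    refine Finset.sum_congr rfl fun h _ => ?_
    generalize (∑ i, sg (dot h (ind (k i))) + c : ℤ) = d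
    rw [sq, Finset.sum_mul_sum]
    simp only [Finset.mul_sum]
  have h3 := Finset.single_le_sum (s := (univ : Finset (P n → ZMod 2)))
    (f := fun h => (∑ i, sg (dot h (ind (k i))) + c) * (∑ G ∈ F, sg (dot h (ind G))) ^ 2)
    (fun h _ => mul_nonneg (bias h) (sq_nonneg _)) (Finset.mem_univ 0)
  have h4 : ∀ w : P n → ZMod 2, sg (dot 0 w) = 1 := by intro w; simp [dot, sg]
  simp only [h4, Finset.sum_const, Finset.card_univ, nsmul_eq_mul, mul_one] at h3
  rw [h2, cardP] at h1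
  rw [h1] at h3
  obtain ⟨i, -⟩ := hb 0
  have hI : (1 : ℤ) ≤ Fintype.card I := by exact_mod_cast Fintype.card_pos_iff.2 ⟨i⟩
  rcases Nat.eq_zero_or_pos F.card with h0 | h0
  · rw [h0]; simp only [Nat.cast_zero, mul_zero]
    exact mul_nonneg (by omega) (by positivity)
  · have h6 : (0 : ℤ) < F.card := by exact_mod_cast h0
    refine le_of_mul_le_mul_left ?_ h6
    have : (2 * (Fintype.card I : ℤ) - 1) = Fintype.card I + c := by omega
    rw [this]
    nlinarith

def pm {v n : ℕ} (f : Fin v ↪o Fin n) (q : P v) : P n := ⟨(f q.1.1, f q.1.2), f.strictMono q.2⟩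

lemma pm_inj {v n : ℕ} (f : Fin v ↪o Fin n) : Function.Injective (pm f) := by
  intro a b e
  have := congrArg Subtype.val e
  simp only [pm, Prod.mk.injEq, EmbeddingLike.apply_eq_iff_eq] at this
  exact Subtype.ext (Prod.ext this.1 this.2)

lemma copy_eq {v n : ℕ} (H : Finset (P v)) (f : Fin v ↪o Fin n) :
    copy H f.toEmbedding = H.image (pm f) := by
  ext p
  simp only [copy, Finset.mem_filter, Finset.mem_univ, true_and, Finset.mem_image]
  constructor
  · rintro ⟨q, hq, h | h⟩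
    · exact ⟨q, hq, Subtype.ext (Prod.ext h.1 h.2)⟩
    · exfalso
      have h1 : f q.1.1 < f q.1.2 := f.strictMono q.2
      have h2 := p.2
      have e1 : f q.1.1 = p.1.2 := h.1
      have e2 : f q.1.2 = p.1.1 := h.2
      rw [e1, e2] at h1
      exact lt_asymm h1 h2
  · rintro ⟨q, hq, rfl⟩
    exact ⟨q, hq, Or.inl ⟨rfl, rfl⟩⟩

lemma dot_const {v n : ℕ} (H : Finset (P v)) (hH : Even H.card) (f : Fin v ↪o Fin n)
    (h : P n → ZMod 2) (e : ZMod 2) (he : ∀ q, h (pm f q) = e) :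
    dot h (ind (copy H f.toEmbedding)) = 0 := by
  rw [copy_eq]
  simp only [dot, ind, mul_ite, mul_one, mul_zero]
  rw [Finset.sum_ite_mem, Finset.univ_inter, Finset.sum_image (pm_inj f).injOn]
  simp only [he, Finset.sum_const, nsmul_eq_mul]
  rw [(ZMod.natCast_eq_zero_iff_even).2 hH, zero_mul]

theorem result : ∀ (v : ℕ) (H : Finset (P v)), H.Nonempty → Even H.card →
    ∃ ε : ℝ, 0 < ε ∧ ∃ n₀ : ℕ, ∀ n ≥ n₀, ∀ F : Finset (Finset (P n)), IsCode H F →
      (F.card : ℝ) ≤ (1 / 2 - ε) * 2 ^ n.choose 2 := by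
  intro v H hne hH
  set N : ℕ := (2 ^ (v + v)).choose v with hN
  have hN0 : 0 < N := Nat.choose_pos (by have := @Nat.lt_two_pow_self (v + v); omega)
  refine ⟨1 / (4 * N), by positivity, 2 ^ (v + v), fun n hn F hF => ?_⟩
  obtain ⟨S, -, hS⟩ := Finset.exists_subset_card_eq (s := (univ : Finset (Fin n)))
    (n := 2 ^ (v + v)) (by simpa using hn)
  have key := hoffman (I := {T // T ∈ S.powersetCard v})
    (fun T => copy H (T.1.orderEmbOfFin (Finset.mem_powersetCard.1 T.2).2).toEmbedding) F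
    (fun h => by
      obtain ⟨T, hT, h1⟩ := ramsey
        (fun x y : Fin n => if hxy : x < y then h ⟨(x, y), hxy⟩ else 0) (v + v) v v rfl S hS.ge
      obtain ⟨e, h1⟩ : ∃ e : ZMod 2, T.card = v ∧ ∀ x ∈ T, ∀ y ∈ T, x < y →
          (if hxy : x < y then h ⟨(x, y), hxy⟩ else 0) = e := h1.elim (⟨_, ·⟩) (⟨_, ·⟩)
      refine ⟨⟨T, Finset.mem_powersetCard.2 ⟨hT, h1.1⟩⟩, dot_const H hH _ h e fun q => ?_⟩
      have h2 := h1.2 _ (T.orderEmbOfFin_mem h1.1 q.1.1) _ (T.orderEmbOfFin_mem h1.1 q.1.2)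
        ((T.orderEmbOfFin h1.1).strictMono q.2)
      rw [dif_pos ((T.orderEmbOfFin h1.1).strictMono q.2)] at h2
      exact h2)
    (fun G₁ h1 G₂ h2 T => by
      by_cases b : G₁ = G₂
      · subst b
        rw [symmDiff_self, copy_eq]
        exact (hne.image _).ne_empty.symm
      · exact hF G₁ h1 G₂ h2 b _)
  rw [Fintype.card_coe, Finset.card_powersetCard, hS, ← hN] at key
  have key' : (2 * (N : ℝ) - 1) * F.card ≤ (N - 1) * 2 ^ n.choose 2 := by exact_mod_cast key
  have hN1 : (1 : ℝ) ≤ N := by exact_mod_cast hN0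
  have hp : (0 : ℝ) < 2 ^ n.choose 2 := by positivity
  have e : (1 / 2 - 1 / (4 * N) : ℝ) = (2 * N - 1) / (4 * N) := by field_simp; ring
  rw [e, div_mul_eq_mul_div, le_div_iff₀ (by positivity)]
  refine le_of_mul_le_mul_left ?_ (show (0 : ℝ) < 2 * N - 1 by linarith)
  have := mul_le_mul_of_nonneg_left key' (show (0 : ℝ) ≤ 4 * N by positivity)
  nlinarith

end Pool.Agent.Results.MP_2d96d7_co.BelowHalf
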